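import Mathlib
import Pool.Agent.Results.MP_16bd3e_an.RepellerNoBoxDimension

/-!
# Covering numbers and box dimensions of powers of a set
-/

set_option autoImplicit false

namespace Pool.Agent.Y912.BD

open Pool.Agent.Results.MP_16bd3e_an.RepellerNoBoxDimension
open Filter Topology Set

variable {X P : Type} [PseudoMetricSpace X] [PseudoMetricSpace P]

/-- the numbers of sets of a cover of `E` by sets of diameter at most `δ` -/
def covs {M : Type} [PseudoMetricSpace M] (E : Set M) (δ : ℝ) : Set ℕ :=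
  {n : ℕ | ∃ U : Fin n → Set M, (∀ i, ∀ x ∈ U i, ∀ y ∈ U i, dist x y ≤ δ) ∧ E ⊆ ⋃ i, U i}

lemma cov_nonempty {E : Set X} (hE : IsCompact E) {δ : ℝ} (hδ : 0 < δ) : (covs E δ).Nonempty := by
  obtain ⟨t, ht, hcov⟩ := Metric.totallyBounded_iff.1 hE.totallyBounded (δ / 2) (by positivity)
  refine ⟨ht.toFinset.card, fun i => Metric.ball (ht.toFinset.equivFin.symm i : X) (δ / 2), ?_, ?_⟩
  · intro i x hx y hy
    have := dist_triangle_right x y (ht.toFinset.equivFin.symm i : X)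
    rw [Metric.mem_ball] at hx hy
    linarith
  · intro x hx
    obtain ⟨y, hy, hxy⟩ := mem_iUnion₂.1 (hcov hx)
    refine mem_iUnion.2 ⟨ht.toFinset.equivFin ⟨y, ht.mem_toFinset.2 hy⟩, ?_⟩
    simpa using hxy

lemma cov_mem {E : Set X} {δ : ℝ} (h : (covs E δ).Nonempty) : coveringNumber E δ ∈ covs E δ :=
  Nat.sInf_mem h

lemma cov_le {E : Set X} {δ : ℝ} {n : ℕ} (h : n ∈ covs E δ) : coveringNumber E δ ≤ n :=
  Nat.sInf_le h

lemma one_le_of_mem {E : Set X} (hE : E.Nonempty) {δ : ℝ} {n : ℕ} (h : n ∈ covs E δ) : 1 ≤ n := by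
  rcases Nat.eq_zero_or_pos n with rfl | h0
  · exfalso
    obtain ⟨U, _, h2⟩ := h
    obtain ⟨x, hx⟩ := hE
    obtain ⟨i, _⟩ := mem_iUnion.1 (h2 hx)
    exact i.elim0
  · exact h0

/-- the image of the `k`-th power of `E` -/
def pw {k : ℕ} (ι : (Fin k → X) → P) (E : Set X) : Set P := ι '' {x | ∀ i, x i ∈ E}

lemma pw_mem {k : ℕ} (ι : (Fin k → X) → P) {E : Set X} {C δ : ℝ}
    (h2 : ∀ x y : Fin k → X, (∀ i, dist (x i) (y i) ≤ δ) → dist (ι x) (ι y) ≤ C * δ)
    {n : ℕ} (hn : n ∈ covs E δ) : n ^ k ∈ covs (pw ι E) (C * δ) := by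
  obtain ⟨U, hU, hcov⟩ := hn
  refine ⟨fun j => ι '' {x | ∀ i, x i ∈ U (finFunctionFinEquiv.symm j i)}, ?_, ?_⟩
  · rintro j _ ⟨x, hx, rfl⟩ _ ⟨y, hy, rfl⟩
    exact h2 x y fun i => hU _ _ (hx i) _ (hy i)
  · rintro _ ⟨x, hx, rfl⟩
    have : ∀ i, ∃ l, x i ∈ U l := fun i => mem_iUnion.1 (hcov (hx i))
    choose g hg using this
    refine mem_iUnion.2 ⟨finFunctionFinEquiv g, x, ?_, rfl⟩
    intro i
    simpa using hg i

lemma exists_sep {E : Set X} (hE : IsCompact E) {δ : ℝ} (hδ : 0 < δ) :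
    ∃ S : Finset X, (∀ x ∈ S, x ∈ E) ∧ (∀ x ∈ S, ∀ y ∈ S, dist x y ≤ δ → x = y) ∧
      ∀ z ∈ E, ∃ x ∈ S, dist z x ≤ δ := by
  classical
  obtain ⟨n, U, hU, hcov⟩ := cov_nonempty hE hδ
  set A : Set ℕ := {c | ∃ S : Finset X, (∀ x ∈ S, x ∈ E) ∧
    (∀ x ∈ S, ∀ y ∈ S, dist x y ≤ δ → x = y) ∧ S.card = c} with hA
  have hne : A.Nonempty := ⟨0, ∅, by simp, by simp, by simp⟩
  have hbd : BddAbove A := by
    refine ⟨n, ?_⟩
    rintro c ⟨S, h1, h2, rfl⟩
    have : ∀ x : S, ∃ l, (x : X) ∈ U l := fun x => mem_iUnion.1 (hcov (h1 x x.2))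
    choose g hg using this
    have hinj : Function.Injective g := by
      intro x y hxy
      apply Subtype.ext
      refine h2 x x.2 y y.2 (hU (g x) _ (hg x) _ ?_)
      rw [hxy]
      exact hg y
    have := Fintype.card_le_of_injective g hinj
    simpa using this
  obtain ⟨S, h1, h2, h3⟩ := Nat.sSup_mem hne hbd
  refine ⟨S, h1, h2, ?_⟩
  intro z hz
  by_contra hcon
  push Not at hcon
  have hzS : z ∉ S := fun h => by
    have := hcon z h
    rw [dist_self] at this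
    linarith
  have hmem : S.card + 1 ∈ A := by
    refine ⟨insert z S, ?_, ?_, Finset.card_insert_of_notMem hzS⟩
    · intro x hx
      rcases Finset.mem_insert.1 hx with rfl | hx
      · exact hz
      · exact h1 x hx
    · intro x hx y hy hxy
      rcases Finset.mem_insert.1 hx with hx' | hx' <;> rcases Finset.mem_insert.1 hy with hy' | hy'
      · rw [hx', hy']
      · rw [hx'] at hxy
        exact absurd hxy (not_le.2 (hcon y hy'))
      · rw [hy', dist_comm] at hxy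
        exact absurd hxy (not_le.2 (hcon x hx'))
      · exact h2 x hx' y hy' hxy
  have := le_csSup hbd hmem
  omega

lemma cov_two_le {E : Set X} {δ : ℝ} {S : Finset X} (h3 : ∀ z ∈ E, ∃ x ∈ S, dist z x ≤ δ) :
    coveringNumber E (2 * δ) ≤ S.card := by
  refine cov_le ⟨fun i => Metric.closedBall (S.equivFin.symm i : X) δ, ?_, ?_⟩
  · intro i x hx y hy
    have := dist_triangle_right x y (S.equivFin.symm i : X)
    rw [Metric.mem_closedBall] at hx hy
    linarith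
  · intro z hz
    obtain ⟨x, hx, hzx⟩ := h3 z hz
    refine mem_iUnion.2 ⟨S.equivFin ⟨x, hx⟩, ?_⟩
    simpa using hzx

lemma pw_lower {k : ℕ} (ι : (Fin k → X) → P) {E : Set X} (hE : IsCompact E) {δ : ℝ} (hδ : 0 < δ)
    (h1 : ∀ (x y : Fin k → X) (i : Fin k), dist (x i) (y i) ≤ dist (ι x) (ι y))
    {n : ℕ} (hn : n ∈ covs (pw ι E) δ) : coveringNumber E (2 * δ) ^ k ≤ n := by
  obtain ⟨S, hS1, hS2, hS3⟩ := exists_sep hE hδ
  obtain ⟨U, hU, hcov⟩ := hn
  have : ∀ x : Fin k → S, ∃ l, ι (fun i => (x i : X)) ∈ U l := fun x =>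
    mem_iUnion.1 (hcov ⟨fun i => (x i : X), fun i => hS1 _ (x i).2, rfl⟩)
  choose g hg using this
  have hinj : Function.Injective g := by
    intro x y hxy
    funext i
    apply Subtype.ext
    refine hS2 _ (x i).2 _ (y i).2 ((h1 (fun i => (x i : X)) (fun i => (y i : X)) i).trans ?_)
    refine hU (g x) _ (hg x) _ ?_
    rw [hxy]
    exact hg y
  have h4 := Fintype.card_le_of_injective g hinj
  simp only [Fintype.card_pi, Fintype.card_coe, Finset.prod_const, Finset.card_univ, Fintype.card_fin] at h4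
  exact (Nat.pow_le_pow_left (cov_two_le hS3) k).trans h4

lemma tendsto_t : Tendsto (fun δ : ℝ => -Real.log δ) (𝓝[>] 0) atTop :=
  tendsto_neg_atBot_atTop.comp Real.tendsto_log_nhdsGT_zero

lemma tendsto_mul {C : ℝ} (hC : 0 < C) : Tendsto (fun δ : ℝ => C * δ) (𝓝[>] 0) (𝓝[>] 0) := by
  refine tendsto_nhdsWithin_iff.2 ⟨?_, ?_⟩
  · have h : Tendsto (fun δ : ℝ => C * δ) (𝓝 0) (𝓝 (C * 0)) := (continuous_const.mul continuous_id).tendsto 0
    rw [mul_zero] at h
    exact h.mono_left nhdsWithin_le_nhds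
  · filter_upwards [self_mem_nhdsWithin] with δ hδ
    exact mul_pos hC hδ

lemma lower {E : Set X} {E' : Set P} {k : ℕ} {C : ℝ} (hC : 0 < C)
    (h : ∀ δ : ℝ, 0 < δ → 1 ≤ coveringNumber E' (C * δ) ∧ coveringNumber E' (C * δ) ≤ coveringNumber E δ ^ k)
    {a a' : ℝ} (haa : a < a') (hl : lowerBoxDim E < a) : lowerBoxDim E' ≤ ((k * a' : ℝ) : EReal) := by
  have h1 : ∃ᶠ δ in 𝓝[>] (0 : ℝ), ((Real.log (coveringNumber E δ) / -Real.log δ : ℝ) : EReal) < (a : EReal) :=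
    frequently_lt_of_liminf_lt (by isBoundedDefault) hl
  refine liminf_le_of_frequently_le ((tendsto_mul hC).frequently ?_)
  have hev : ∀ᶠ δ in 𝓝[>] (0 : ℝ), 0 < δ := self_mem_nhdsWithin
  refine (h1.and_eventually (hev.and
    (tendsto_t.eventually_ge_atTop (max (|Real.log C| + 1) (a' * Real.log C / (a' - a)))))).mono ?_
  rintro δ ⟨h2, hδ, hT⟩
  have hδ' : (0 : ℝ) < δ := hδ
  set t : ℝ := -Real.log δ with ht
  have hT1 : |Real.log C| + 1 ≤ t := (le_max_left _ _).trans hT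
  have hT2 : a' * Real.log C / (a' - a) ≤ t := (le_max_right _ _).trans hT
  have hd : 0 < a' - a := sub_pos.2 haa
  rw [div_le_iff₀ hd] at hT2
  have hlc := le_abs_self (Real.log C)
  have ht0 : 0 < t := by
    have := abs_nonneg (Real.log C)
    linarith
  have ht1 : 0 < t - Real.log C := by linarith
  rw [EReal.coe_lt_coe_iff, div_lt_iff₀ ht0] at h2
  have hlog : -Real.log (C * δ) = t - Real.log C := by
    rw [Real.log_mul hC.ne' hδ'.ne', ht]
    ring
  rw [hlog, EReal.coe_le_coe_iff, div_le_iff₀ ht1]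
  obtain ⟨h3, h4⟩ := h δ hδ'
  have h5 : Real.log (coveringNumber E' (C * δ)) ≤ k * Real.log (coveringNumber E δ) := by
    rw [← Real.log_pow]
    apply Real.log_le_log
    · exact_mod_cast h3
    · exact_mod_cast h4
  have hk : (0 : ℝ) ≤ k := Nat.cast_nonneg k
  calc Real.log (coveringNumber E' (C * δ)) ≤ k * Real.log (coveringNumber E δ) := h5
    _ ≤ k * (a * t) := mul_le_mul_of_nonneg_left h2.le hk
    _ ≤ k * (a' * (t - Real.log C)) := mul_le_mul_of_nonneg_left (by nlinarith) hk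
    _ = k * a' * (t - Real.log C) := by ring

lemma upper {E : Set X} {E' : Set P} {k : ℕ}
    (h : ∀ δ : ℝ, 0 < δ → 1 ≤ coveringNumber E (2 * δ) ∧ coveringNumber E (2 * δ) ^ k ≤ coveringNumber E' δ)
    {b b' : ℝ} (hbb : b' < b) (hu : (b : EReal) < upperBoxDim E) :
    ((k * b' : ℝ) : EReal) ≤ upperBoxDim E' := by
  have h1 : ∃ᶠ δ in 𝓝[>] (0 : ℝ), (b : EReal) < ((Real.log (coveringNumber E δ) / -Real.log δ : ℝ) : EReal) :=
    frequently_lt_of_lt_limsup (by isBoundedDefault) hu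
  refine le_limsup_of_frequently_le ((tendsto_mul (C := 1 / 2) (by norm_num)).frequently ?_)
  have hev : ∀ᶠ δ in 𝓝[>] (0 : ℝ), 0 < δ := self_mem_nhdsWithin
  refine (h1.and_eventually (hev.and
    (tendsto_t.eventually_ge_atTop (max 1 (b' * Real.log 2 / (b - b')))))).mono ?_
  rintro δ ⟨h2, hδ, hT⟩
  have hδ' : (0 : ℝ) < δ := hδ
  set t : ℝ := -Real.log δ with ht
  have hT1 : 1 ≤ t := (le_max_left _ _).trans hT
  have hT2 : b' * Real.log 2 / (b - b') ≤ t := (le_max_right _ _).trans hT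
  have hd : 0 < b - b' := sub_pos.2 hbb
  rw [div_le_iff₀ hd] at hT2
  have hlc : 0 < Real.log 2 := Real.log_pos one_lt_two
  have ht0 : 0 < t := by linarith
  have ht1 : 0 < t + Real.log 2 := by linarith
  rw [EReal.coe_lt_coe_iff, lt_div_iff₀ ht0] at h2
  have hlog : -Real.log (1 / 2 * δ) = t + Real.log 2 := by
    rw [Real.log_mul (by norm_num) hδ'.ne', ht, one_div, Real.log_inv]
    ring
  rw [hlog, EReal.coe_le_coe_iff, le_div_iff₀ ht1]
  obtain ⟨h3, h4⟩ := h (1 / 2 * δ) (by positivity)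
  have he : 2 * (1 / 2 * δ) = δ := by ring
  rw [he] at h3 h4
  have h5 : k * Real.log (coveringNumber E δ) ≤ Real.log (coveringNumber E' (1 / 2 * δ)) := by
    rw [← Real.log_pow]
    apply Real.log_le_log
    · have : 0 < coveringNumber E δ := h3
      positivity
    · exact_mod_cast h4
  have hk : (0 : ℝ) ≤ k := Nat.cast_nonneg k
  calc k * b' * (t + Real.log 2) = k * (b' * (t + Real.log 2)) := by ring
    _ ≤ k * (b * t) := mul_le_mul_of_nonneg_left (by nlinarith) hk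
    _ ≤ k * Real.log (coveringNumber E δ) := mul_le_mul_of_nonneg_left h2.le hk
    _ ≤ _ := h5

/-- **Box dimensions of powers.** -/
theorem dims {k : ℕ} (ι : (Fin k → X) → P) {E : Set X} (hE : IsCompact E) (hne : E.Nonempty) {C : ℝ}
    (hC : 0 < C) (h1 : ∀ (x y : Fin k → X) (i : Fin k), dist (x i) (y i) ≤ dist (ι x) (ι y))
    (h2 : ∀ (δ : ℝ), 0 < δ → ∀ x y : Fin k → X, (∀ i, dist (x i) (y i) ≤ δ) → dist (ι x) (ι y) ≤ C * δ)
    {a a' b b' : ℝ} (haa : a < a') (hbb : b' < b) (hl : lowerBoxDim E < a) (hu : (b : EReal) < upperBoxDim E) :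
    lowerBoxDim (pw ι E) ≤ ((k * a' : ℝ) : EReal) ∧ ((k * b' : ℝ) : EReal) ≤ upperBoxDim (pw ι E) := by
  have hne' : (pw ι E).Nonempty := by
    obtain ⟨x, hx⟩ := hne
    exact ⟨ι fun _ => x, fun _ => x, fun _ => hx, rfl⟩
  have hcov : ∀ δ : ℝ, 0 < δ → coveringNumber E δ ^ k ∈ covs (pw ι E) (C * δ) := fun δ hδ =>
    pw_mem ι (h2 δ hδ) (cov_mem (cov_nonempty hE hδ))
  refine ⟨lower hC (fun δ hδ => ⟨one_le_of_mem hne' (cov_mem ⟨_, hcov δ hδ⟩), cov_le (hcov δ hδ)⟩) haa hl,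
    upper (fun δ hδ => ⟨one_le_of_mem hne (cov_mem (cov_nonempty hE (by positivity))), ?_⟩) hbb hu⟩
  refine pw_lower ι hE hδ h1 (cov_mem ?_)
  have h3 := hcov (C⁻¹ * δ) (by positivity)
  rw [mul_inv_cancel_left₀ hC.ne'] at h3
  exact ⟨_, h3⟩

end Pool.Agent.Y912.BD
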