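import Mathlib
import Pool.Agent.Y912.BD.Cov

/-!
# Powers of the repeller, times a source
-/

set_option autoImplicit false

namespace Pool.Agent.Y912.BD

open Pool.Agent.Results.MP_16bd3e_an.RepellerNoBoxDimension
open Filter Topology Set
open scoped ContDiff

/-- Auxiliary form of `CoverOf`. -/
abbrev Cov0 (k m : ℕ) := WithLp 2 (PiLp 2 (fun _ : Fin k => Cover) × EuclideanSpace ℝ (Fin m))

/-- The Euclidean space `(ℝ⁴ × ℝ)^k × ℝ^m = ℝ^(5k+m)`. -/
def CoverOf (k m : ℕ) : Type := WithLp 2 (PiLp 2 (fun _ : Fin k => Cover) × EuclideanSpace ℝ (Fin m))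

/-- Its Euclidean norm. -/
noncomputable instance (k m : ℕ) : NormedAddCommGroup (CoverOf k m) :=
  inferInstanceAs (NormedAddCommGroup (WithLp 2 (PiLp 2 (fun _ : Fin k => Cover) × EuclideanSpace ℝ (Fin m))))

/-- Its structure of a real vector space. -/
noncomputable instance (k m : ℕ) : NormedSpace ℝ (CoverOf k m) :=
  inferInstanceAs (NormedSpace ℝ (WithLp 2 (PiLp 2 (fun _ : Fin k => Cover) × EuclideanSpace ℝ (Fin m))))

/-- The flat manifold `(ℝ⁴ × ℝ/κℤ)^k × ℝ^m` of dimension `5k + m`. -/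
def Man (k m : ℕ) (κ : ℝ) : Type := WithLp 2 (PiLp 2 (fun _ : Fin k => Cyl κ) × EuclideanSpace ℝ (Fin m))

/-- Its Riemannian distance, the `ℓ²` product distance. -/
noncomputable instance (k m : ℕ) (κ : ℝ) : PseudoMetricSpace (Man k m κ) :=
  inferInstanceAs (PseudoMetricSpace (WithLp 2 (PiLp 2 (fun _ : Fin k => Cyl κ) × EuclideanSpace ℝ (Fin m))))

/-- the point with the coordinates `x` and `y` -/
def mk {k m : ℕ} {κ : ℝ} (x : Fin k → Cyl κ) (y : EuclideanSpace ℝ (Fin m)) : Man k m κ :=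
  WithLp.toLp 2 (WithLp.toLp 2 x, y)

/-- the coordinates in the cylinders -/
def co {k m : ℕ} {κ : ℝ} (x : Man k m κ) (i : Fin k) : Cyl κ := x.fst i

/-- the coordinate in `ℝ^m` -/
def eu {k m : ℕ} {κ : ℝ} (x : Man k m κ) : EuclideanSpace ℝ (Fin m) := x.snd

/-- Auxiliary form of `projOf`. -/
noncomputable def proj0 (k m : ℕ) (κ : ℝ) (q : Cov0 k m) : Man k m κ :=
  mk (fun i => proj κ (q.fst i)) q.snd

/-- The covering map `((x_i, θ_i)_i, y) ↦ ((x_i, θ_i mod κ)_i, y)`, a local isometry. -/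
noncomputable def projOf (k m : ℕ) (κ : ℝ) (q : CoverOf k m) : Man k m κ :=
  mk (fun i => proj κ (WithLp.fst (p := 2) (α := PiLp 2 (fun _ : Fin k => Cover))
    (β := EuclideanSpace ℝ (Fin m)) q i))
    (WithLp.snd (p := 2) (α := PiLp 2 (fun _ : Fin k => Cover)) (β := EuclideanSpace ℝ (Fin m)) q)

/-- `f` is a `C^∞` expanding map of the manifold `M`, covered by the normed space `V` through the local
isometry `π`: it has a lift `F` to `V` which is `C^∞` and satisfies `‖D_q F v‖ ≥ c ‖v‖` for all `q, v`, with a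
constant `c > 1`. -/
def IsExpanding {V M : Type} [NormedAddCommGroup V] [NormedSpace ℝ V] (π : V → M) (f : M → M) : Prop :=
  ∃ F : V → V, ContDiff ℝ ∞ F ∧ (∀ q, f (π q) = π (F q)) ∧
    ∃ c : ℝ, 1 < c ∧ ∀ q v, c * ‖v‖ ≤ ‖fderiv ℝ F q v‖

variable {k m : ℕ} {κ : ℝ}

@[simp] lemma co_mk (x : Fin k → Cyl κ) (y : EuclideanSpace ℝ (Fin m)) (i : Fin k) : co (mk x y) i = x i := rfl
@[simp] lemma eu_mk (x : Fin k → Cyl κ) (y : EuclideanSpace ℝ (Fin m)) : eu (mk x y) = y := rfl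

lemma mk_co_eu (x : Man k m κ) : mk (co x) (eu x) = x := rfl

lemma continuous_mk0 : Continuous (fun x : Fin k → Cyl κ => (mk x 0 : Man k m κ)) :=
  (WithLp.prod_continuous_toLp 2 _ _).comp
    ((PiLp.continuous_toLp 2 (fun _ : Fin k => Cyl κ)).prodMk continuous_const)

lemma continuous_co (i : Fin k) : Continuous (fun x : Man k m κ => co x i) :=
  (PiLp.continuous_apply 2 (fun _ : Fin k => Cyl κ) i).comp
    (WithLp.continuous_fst 2 (PiLp 2 (fun _ : Fin k => Cyl κ)) (EuclideanSpace ℝ (Fin m)))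

lemma continuous_eu : Continuous (fun x : Man k m κ => eu x) :=
  WithLp.continuous_snd 2 (PiLp 2 (fun _ : Fin k => Cyl κ)) (EuclideanSpace ℝ (Fin m))

lemma dist_ge (x y : Fin k → Cyl κ) (i : Fin k) :
    dist (x i) (y i) ≤ dist (mk x 0 : Man k m κ) (mk y 0) := by
  have h1 := (WithLp.prod_lipschitzWith_ofLp 2 (PiLp 2 (fun _ : Fin k => Cyl κ)) (EuclideanSpace ℝ (Fin m))).dist_le_mul
    (WithLp.toLp 2 (WithLp.toLp 2 x, (0 : EuclideanSpace ℝ (Fin m)))) (WithLp.toLp 2 (WithLp.toLp 2 y, 0))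
  have h2 := (PiLp.lipschitzWith_ofLp 2 (fun _ : Fin k => Cyl κ)).dist_le_mul (WithLp.toLp 2 x) (WithLp.toLp 2 y)
  rw [NNReal.coe_one, one_mul] at h1 h2
  calc dist (x i) (y i) ≤ dist x y := dist_le_pi_dist x y i
    _ ≤ dist (WithLp.toLp 2 x : PiLp 2 (fun _ : Fin k => Cyl κ)) (WithLp.toLp 2 y) := h2
    _ ≤ dist ((WithLp.toLp 2 x : PiLp 2 (fun _ : Fin k => Cyl κ)), (0 : EuclideanSpace ℝ (Fin m)))
        (WithLp.toLp 2 y, 0) := le_max_left _ _
    _ ≤ _ := h1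

lemma dist_le_of (k m : ℕ) (κ : ℝ) : ∃ C : ℝ, 0 < C ∧ ∀ δ : ℝ, 0 < δ → ∀ x y : Fin k → Cyl κ,
    (∀ i, dist (x i) (y i) ≤ δ) → dist (mk x 0 : Man k m κ) (mk y 0) ≤ C * δ := by
  obtain ⟨K1, hK1⟩ : ∃ K : NNReal, AntilipschitzWith K
      (@WithLp.ofLp 2 (PiLp 2 (fun _ : Fin k => Cyl κ) × EuclideanSpace ℝ (Fin m))) :=
    ⟨_, WithLp.prod_antilipschitzWith_ofLp 2 (PiLp 2 (fun _ : Fin k => Cyl κ)) (EuclideanSpace ℝ (Fin m))⟩
  obtain ⟨K2, hK2⟩ : ∃ K : NNReal, AntilipschitzWith K (@WithLp.ofLp 2 (∀ _ : Fin k, Cyl κ)) :=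
    ⟨_, PiLp.antilipschitzWith_ofLp 2 (fun _ : Fin k => Cyl κ)⟩
  refine ⟨K1 * K2 + 1, by positivity, fun δ hδ x y hxy => ?_⟩
  have h1 := hK1.le_mul_dist
    (WithLp.toLp 2 ((WithLp.toLp 2 x : PiLp 2 (fun _ : Fin k => Cyl κ)), (0 : EuclideanSpace ℝ (Fin m))))
    (WithLp.toLp 2 (WithLp.toLp 2 y, 0))
  have h2 := hK2.le_mul_dist (WithLp.toLp 2 x) (WithLp.toLp 2 y)
  have h3 : dist x y ≤ δ := (dist_pi_le_iff hδ.le).2 hxy
  have h4 : dist ((WithLp.toLp 2 x : PiLp 2 (fun _ : Fin k => Cyl κ)), (0 : EuclideanSpace ℝ (Fin m)))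
        (WithLp.toLp 2 y, 0) = dist (WithLp.toLp 2 x : PiLp 2 (fun _ : Fin k => Cyl κ)) (WithLp.toLp 2 y) := by
    rw [Prod.dist_eq]
    simp
  calc dist (mk x 0 : Man k m κ) (mk y 0) ≤ K1 * dist ((WithLp.toLp 2 x : PiLp 2 (fun _ : Fin k => Cyl κ)),
        (0 : EuclideanSpace ℝ (Fin m))) (WithLp.toLp 2 y, 0) := h1
    _ = K1 * dist (WithLp.toLp 2 x : PiLp 2 (fun _ : Fin k => Cyl κ)) (WithLp.toLp 2 y) := by rw [h4]
    _ ≤ K1 * (K2 * dist x y) := mul_le_mul_of_nonneg_left h2 K1.coe_nonneg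
    _ ≤ K1 * (K2 * δ) := by gcongr
    _ ≤ (K1 * K2 + 1) * δ := by nlinarith

/-- the product map -/
noncomputable def pr (f : Cyl κ → Cyl κ) (x : Man k m κ) : Man k m κ :=
  mk (fun i => f (co x i)) ((2 : ℝ) • eu x)

lemma co_iter (f : Cyl κ → Cyl κ) (n : ℕ) (x : Man k m κ) (i : Fin k) : co ((pr f)^[n] x) i = f^[n] (co x i) := by
  induction n with
  | zero => rfl
  | succ n ih =>
    rw [Function.iterate_succ_apply', Function.iterate_succ_apply', ← ih]
    rfl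

lemma eu_iter (f : Cyl κ → Cyl κ) (n : ℕ) (x : Man k m κ) : eu ((pr f)^[n] x) = (2 : ℝ) ^ n • eu x := by
  induction n with
  | zero => simp
  | succ n ih =>
    rw [Function.iterate_succ_apply']
    show (2 : ℝ) • eu ((pr f)^[n] x) = _
    rw [ih, smul_smul, pow_succ']

/-- expansion of a product, abstractly -/
lemma expand_abs {V W Z : Type} [NormedAddCommGroup V] [NormedSpace ℝ V] [NormedAddCommGroup W] [NormedSpace ℝ W]
    [NormedAddCommGroup Z] [NormedSpace ℝ Z] (P : Fin k → V →L[ℝ] W) (Q : V →L[ℝ] Z)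
    (hn : ∀ w : V, ‖w‖ ^ 2 = ∑ i, ‖P i w‖ ^ 2 + ‖Q w‖ ^ 2) (G : V → V) (F : W → W) (hG : Differentiable ℝ G)
    (hF : Differentiable ℝ F) (hPG : ∀ i q, P i (G q) = F (P i q)) (hQG : ∀ q, Q (G q) = (2 : ℝ) • Q q)
    {c : ℝ} (hc : 1 < c) (hFc : ∀ q v, c * ‖v‖ ≤ ‖fderiv ℝ F q v‖) (q v : V) :
    min c 2 * ‖v‖ ≤ ‖fderiv ℝ G q v‖ := by
  have h1 : ∀ i, P i (fderiv ℝ G q v) = fderiv ℝ F (P i q) (P i v) := by
    intro i
    have hl : HasFDerivAt (fun x => P i (G x)) ((P i).comp (fderiv ℝ G q)) q :=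
      (P i).hasFDerivAt.comp q (hG q).hasFDerivAt
    have hr : HasFDerivAt (fun x => F (P i x)) ((fderiv ℝ F (P i q)).comp (P i)) q :=
      HasFDerivAt.comp q (hF (P i q)).hasFDerivAt (P i).hasFDerivAt
    have hfun : (fun x => P i (G x)) = fun x => F (P i x) := funext (hPG i)
    rw [hfun] at hl
    have he := hl.unique hr
    exact congrArg (fun L => L v) he
  have h2 : Q (fderiv ℝ G q v) = (2 : ℝ) • Q v := by
    have hl : HasFDerivAt (fun x => Q (G x)) (Q.comp (fderiv ℝ G q)) q :=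
      Q.hasFDerivAt.comp q (hG q).hasFDerivAt
    have hr : HasFDerivAt (fun x => (2 : ℝ) • Q x) ((2 : ℝ) • Q) q := Q.hasFDerivAt.const_smul 2
    have hfun : (fun x => Q (G x)) = fun x => (2 : ℝ) • Q x := funext hQG
    rw [hfun] at hl
    exact congrArg (fun L => L v) (hl.unique hr)
  have hm0 : 0 < min c 2 := lt_min (by linarith) two_pos
  apply (sq_le_sq₀ (by positivity) (norm_nonneg _)).1
  rw [mul_pow, hn v, hn (fderiv ℝ G q v), mul_add, Finset.mul_sum, h2]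
  refine add_le_add (Finset.sum_le_sum fun i _ => ?_) ?_
  · rw [h1 i, ← mul_pow]
    refine pow_le_pow_left₀ (by positivity) (le_trans ?_ (hFc (P i q) (P i v))) 2
    exact mul_le_mul_of_nonneg_right (min_le_left _ _) (norm_nonneg _)
  · rw [norm_smul, mul_pow, Real.norm_eq_abs, abs_two]
    exact mul_le_mul_of_nonneg_right (pow_le_pow_left₀ hm0.le (min_le_right _ _) 2) (by positivity)

/-- the coordinates of the cover -/
noncomputable def P (k m : ℕ) (i : Fin k) : Cov0 k m →L[ℝ] Cover :=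
  (PiLp.proj 2 (fun _ : Fin k => Cover) i).comp
    (WithLp.fstL 2 ℝ (PiLp 2 (fun _ : Fin k => Cover)) (EuclideanSpace ℝ (Fin m)))

/-- the last coordinate of the cover -/
noncomputable def Q (k m : ℕ) : Cov0 k m →L[ℝ] EuclideanSpace ℝ (Fin m) :=
  WithLp.sndL 2 ℝ (PiLp 2 (fun _ : Fin k => Cover)) (EuclideanSpace ℝ (Fin m))

/-- the lift of the product map -/
noncomputable def lift (F : Cover → Cover) (q : Cov0 k m) : Cov0 k m :=
  WithLp.toLp 2 (WithLp.toLp 2 (fun i => F (P k m i q)), (2 : ℝ) • Q k m q)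

lemma norm_dec (w : Cov0 k m) : ‖w‖ ^ 2 = ∑ i, ‖P k m i w‖ ^ 2 + ‖Q k m w‖ ^ 2 := by
  rw [WithLp.prod_norm_sq_eq_of_L2, PiLp.norm_sq_eq_of_L2]
  rfl

lemma P_lift (F : Cover → Cover) (i : Fin k) (q : Cov0 k m) : P k m i (lift F q) = F (P k m i q) := rfl

lemma Q_lift (F : Cover → Cover) (q : Cov0 k m) : Q k m (lift F q) = (2 : ℝ) • Q k m q := rfl

lemma smooth_lift {F : Cover → Cover} (hF : ContDiff ℝ ∞ F) : ContDiff ℝ ∞ (lift F : Cov0 k m → Cov0 k m) := by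
  have h1 : ContDiff ℝ ∞ (fun q : Cov0 k m => fun i => F (P k m i q)) :=
    contDiff_pi.2 fun i => hF.comp (P k m i).contDiff
  have h2 : ContDiff ℝ ∞ (fun q : Cov0 k m => (2 : ℝ) • Q k m q) := (Q k m).contDiff.const_smul 2
  exact WithLp.contDiff_toLp.comp (ContDiff.prodMk (PiLp.contDiff_toLp.comp h1) h2)

lemma expanding0 {f : Cyl κ → Cyl κ} (hf : IsSmoothExpanding κ f) :
    IsExpanding (V := Cov0 k m) (proj0 k m κ) (pr f) := by
  obtain ⟨F, hF, hfF, c, hc, hFc⟩ := hf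
  refine ⟨lift F, smooth_lift hF, ?_, min c 2, lt_min hc one_lt_two, ?_⟩
  · intro q
    show mk (fun i => f (proj κ (q.fst i))) ((2 : ℝ) • q.snd) = mk (fun i => proj κ (F (q.fst i))) ((2 : ℝ) • q.snd)
    congr 1
    funext i
    exact hfF _
  · exact expand_abs (P k m) (Q k m) norm_dec (lift F) F ((smooth_lift hF).differentiable (by simp))
      (hF.differentiable (by simp)) (P_lift F) (Q_lift F) hc hFc

lemma expanding {f : Cyl κ → Cyl κ} (hf : IsSmoothExpanding κ f) : IsExpanding (projOf k m κ) (pr f) :=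
  expanding0 hf

lemma repeller {f : Cyl κ → Cyl κ} {Λ : Set (Cyl κ)} (h : IsRepeller f Λ) :
    IsRepeller (pr f : Man k m κ → Man k m κ) (pw (fun x => (mk x 0 : Man k m κ)) Λ) := by
  obtain ⟨hne, hcpt, himg, U, hU, hΛU, hrep⟩ := h
  have hmap : ∀ x ∈ Λ, f x ∈ Λ := fun x hx => himg ▸ mem_image_of_mem f hx
  have hpr : ∀ x : Fin k → Cyl κ, (pr f (mk x 0) : Man k m κ) = mk (fun i => f (x i)) 0 := by
    intro x
    show mk (fun i => f (x i)) ((2 : ℝ) • (0 : EuclideanSpace ℝ (Fin m))) = _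
    rw [smul_zero]
  refine ⟨?_, ?_, ?_, {x | (∀ i, co x i ∈ U) ∧ ‖eu x‖ < 1}, ?_, ?_, ?_⟩
  · obtain ⟨x, hx⟩ := hne
    exact ⟨_, fun _ => x, fun _ => hx, rfl⟩
  · have hc : IsCompact {x : Fin k → Cyl κ | ∀ i, x i ∈ Λ} := by
      have := isCompact_univ_pi (fun _ : Fin k => hcpt)
      convert this using 1
      ext x
      simp
    exact hc.image continuous_mk0
  · ext z
    constructor
    · rintro ⟨_, ⟨x, hx, rfl⟩, rfl⟩
      exact ⟨fun i => f (x i), fun i => hmap _ (hx i), (hpr x).symm⟩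
    · rintro ⟨x, hx, rfl⟩
      have : ∀ i, ∃ y ∈ Λ, f y = x i := fun i => by
        have := hx i
        rw [← himg] at this
        exact this
      choose y hy hfy using this
      refine ⟨mk y 0, ⟨y, hy, rfl⟩, ?_⟩
      rw [hpr]
      congr 1
      funext i
      exact hfy i
  · refine IsOpen.inter ?_ (isOpen_lt continuous_eu.norm continuous_const)
    have : {x : Man k m κ | ∀ i, co x i ∈ U} = ⋂ i, (fun x => co x i) ⁻¹' U := by
      ext x
      simp
    show IsOpen {x : Man k m κ | ∀ i, co x i ∈ U}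
    rw [this]
    exact isOpen_iInter_of_finite fun i => hU.preimage (continuous_co i)
  · rintro _ ⟨x, hx, rfl⟩
    exact ⟨fun i => hΛU (hx i), by simp⟩
  · ext z
    constructor
    · rintro ⟨x, hx, rfl⟩
      refine ⟨⟨fun i => hΛU (hx i), by simp⟩, fun n => ⟨fun i => ?_, ?_⟩⟩
      · rw [co_iter]
        have := hx i
        rw [hrep] at this
        exact this.2 n
      · rw [eu_iter]
        simp
    · rintro ⟨⟨h1, h2⟩, h3⟩
      have hz : eu z = 0 := by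
        by_contra hne0
        have hpos : 0 < ‖eu z‖ := norm_pos_iff.2 hne0
        obtain ⟨n, hn⟩ := pow_unbounded_of_one_lt (1 / ‖eu z‖) (one_lt_two (α := ℝ))
        have h4 := (h3 n).2
        rw [eu_iter, norm_smul, norm_pow, Real.norm_eq_abs, abs_two] at h4
        rw [div_lt_iff₀ hpos] at hn
        linarith
      refine ⟨co z, fun i => ?_, ?_⟩
      · rw [hrep]
        refine ⟨h1 i, fun n => ?_⟩
        have := (h3 n).1 i
        rwa [co_iter] at this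
      · show mk (co z) 0 = z
        rw [← hz]
        rfl

end Pool.Agent.Y912.BD
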